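import Mathlib
import Pool.Agent.Work.MP_e91f84_lc.Topo
import Pool.Agent.Work.MP_e91f84_lc.Inv4

set_option autoImplicit false

/-!
# `E₀` reduces to topological conjugacy of Axiom A diffeomorphisms of the torus

There is a continuous (hence Borel) map from Cantor space to the `C^∞` diffeomorphisms of the
two-torus, all of whose values satisfy Axiom A, such that two values are topologically conjugate
exactly when the two sequences agree at all but finitely many places.

The maps are skew products over a north-south map of the circle with a source, two saddles and a
sink; the unstable curve of one saddle meets the stable curve of the other one along a closed set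
whose complement consists of countably many arcs, and the bit `x n` selects one of two possible
heights of the `n`-th arc.
-/

open Filter Topology Set

namespace Pool.Agent.Results.MP_e91f84_lc.EZeroReduction

open Pool.MP_e91f84_lc

theorem result : ∃ φ : (ℕ → Bool) → DiffT2,
    Continuous φ ∧ Measurable φ ∧ (∀ x, AxiomA (φ x)) ∧
      ∀ x y : ℕ → Bool, {n | x n ≠ y n}.Finite ↔ TopConj (φ x) (φ y) := by
  refine ⟨Phi, continuous_Phi, ?_, axiomA_Phi, ?_⟩
  · have : BorelSpace DiffT2 := ⟨rfl⟩
    exact continuous_Phi.measurable
  · intro x y
    have h1 : {n | x n ≠ y n}.Finite ↔ ∀ᶠ n in atTop, x n = y n := by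
      rw [← Nat.cofinite_eq_atTop, Filter.eventually_cofinite]
    rw [h1]
    exact ⟨topConj_of_eventually, eventually_of_topConj⟩

end Pool.Agent.Results.MP_e91f84_lc.EZeroReduction
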